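import Pool.Agent.Helper6.RD.Main
import Pool.Agent.Helper51.AffOpen
import Pool.Agent.Helper52.SmoothPrimes.General
import Pool.Agent.Helper83.LVB2

/-!
MP_26d9ad_nt: the Lang-Vojta conjecture for 100% of the perturbations `f_i + G_i(x)` of `e` arbitrary
functions on an arbitrary variety of relative dimension `e` by polynomials of high degree, over every
arithmetic scheme: complements of `e` divisors, and the complete intersections and covers of the same
kind, also in the presence of units.

Proof.  A section of `W` over `B` gives a point over a ring of `S`-integers `S = O_K[1/N]`.  The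
classes modulo `M`-th powers of the units `y_i` and of the units `f_i + G_i(x)`, `i ∉ E`, take only
`M^(g(k+e))` values, and they determine the units modulo every prime `r` with `r - 1 ∣ M` that has a
homomorphism `S → F_r`; there are enough such primes (`Pool/Agent/Helper83`, `Pool/Agent/Helper52`).
Modulo `r` the point lies on the fibre of `W → 𝔸^k_B` over a point that is determined by the classes;
this fibre has at most `C r^e` points over `F_r`, with `C` depending only on `W`
(`Pool/Agent/Helper6/RD/{Fiber,Count,Sch}.lean`: Noether normalisation and Noetherian induction).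
The values of random polynomials of degree at least `D₀` at any `D₀` points are independent, and a
truncated inclusion-exclusion shows that for a positive proportion of the tuples `G` modulo `r` none
of these points is a solution (`Pool/Agent/Helper6/RD/{Bonf,Poly}.lean`).  The sieve of
`Pool/Agent/Helper8` concludes.
-/

open AlgebraicGeometry CategoryTheory NumberField Pool.Agent.Helper6.RD

namespace Pool.Agent.Results.MP_26d9ad_nt.RandomDivisors

theorem result (B : Scheme.{0}) [IsIntegral B] (s : B ⟶ Spec (.of ℤ)) [LocallyOfFiniteType s]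
    [Flat s] (W : Scheme.{0}) (π : W ⟶ B) [LocallyOfFiniteType π] [QuasiCompact π] (k e : ℕ)
    (he : 1 ≤ e) (y : Fin k → Γ(W, ⊤)ˣ)
    (hdim : ∀ t : 𝔸(Fin k; B), (𝔸(Fin k; B) ↘ B) t = genericPoint B →
      topologicalKrullDim
        (AffineSpace.homOfVector π (fun i => (y i : Γ(W, ⊤))) ⁻¹' {t}) ≤ e) :
    ∃ D₀ : ℕ, ∀ (N : ℕ) (d : Fin e → ℕ), (∀ i, D₀ ≤ d i) → ∀ ε : ℝ, 0 < ε →
      ∃ H₀ : ℕ, ∀ H : ℕ, H₀ ≤ H → ∀ (x : Fin N → Γ(W, ⊤)) (f : Fin e → Γ(W, ⊤)),
        (∀ i, f i ∈ coordRing π y x) → ∀ E : Set (Fin e),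
        (({G ∈ PolyBox N d H | ∃ σ : B ⟶ W, IsSectionOf π x f G E σ}.ncard : ℕ) : ℝ) ≤
          ε * (PolyBox N d H).ncard := by
  classical
  obtain ⟨V, hne, hV, hchar, hft⟩ := Pool.Agent.Helper51.AffOpen.exists_affine s
    (Pool.Agent.Helper51.AffOpen.charZero_functionField_of_flat s)
  have hnonempty : Nonempty V := hne.to_subtype
  have hnoeth : IsNoetherianRing Γ(B, V) := Algebra.FiniteType.isNoetherianRing ℤ Γ(B, V)
  obtain ⟨C₀, g, hg, hC₀⟩ := scheme_bound V hV π (fun i => (y i : Γ(W, ⊤))) e hdim
  -- a ring of `S`-integers over the locus where `g` is invertible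
  have hinj : Function.Injective (algebraMap Γ(B, V) (Localization.Away g)) :=
    IsLocalization.injective _ (powers_le_nonZeroDivisors_of_noZeroDivisors hg)
  have hchar' : CharZero (Localization.Away g) := charZero_of_injective_algebraMap hinj
  have hft' : @Algebra.FiniteType ℤ (Localization.Away g) _ _ (Ring.toIntAlgebra _) := by
    have h1 : (algebraMap Γ(B, V) (Localization.Away g)).FiniteType := by
      rw [RingHom.finiteType_algebraMap]
      exact IsLocalization.finiteType_of_monoid_fg (Submonoid.powers g) _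
    have h2 : (algebraMap ℤ Γ(B, V)).FiniteType := RingHom.finiteType_algebraMap.mpr hft
    have h3 := h1.comp h2
    have h4 : (algebraMap Γ(B, V) (Localization.Away g)).comp (algebraMap ℤ Γ(B, V)) =
        @algebraMap ℤ (Localization.Away g) _ _ (Ring.toIntAlgebra _) := RingHom.ext_int _ _
    rw [h4] at h3
    exact (@RingHom.finiteType_algebraMap ℤ (Localization.Away g) _ _ (Ring.toIntAlgebra _)).mp h3
  obtain ⟨K, _, _, N, hN, ⟨φ₀⟩⟩ := Pool.Agent.Helper51.LVC.exists_hom (Localization.Away g)
  have hG := Pool.Agent.Helper51.LVC.units_fg (K := K) N hN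
  obtain ⟨c, hc, hdens⟩ := Pool.Agent.Helper83.LVB.splitting_primes K
  let P : Set ℕ := {r | r.Prime ∧ Nonempty (𝓞 K →+* ZMod r)}
  let φ : Γ(B, V) →+* Localization.Away (N : 𝓞 K) := φ₀.comp (algebraMap _ _)
  refine main_of V hV π he y (Localization.Away (N : 𝓞 K)) hG φ C₀ ?_ {r | r ∈ P ∧ N < r} ?_ ?_
  · intro F _ _ ψ c
    refine hC₀ F (ψ.comp φ) c ?_
    have h1 : IsUnit ((ψ.comp φ) g) :=
      ((IsLocalization.Away.algebraMap_isUnit (S := Localization.Away g) g).map φ₀).map ψ
    exact h1.ne_zero
  · rintro r ⟨⟨hr, ⟨f⟩⟩, hrN⟩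
    obtain ⟨ψ, -⟩ := Pool.Agent.Helper51.LVC.lift_hom (K := K) N r hr (fun hd =>
      absurd (Nat.le_of_dvd hN hd) (not_le.mpr hrN)) f
    exact ⟨hr, ⟨ψ⟩⟩
  · intro C
    obtain ⟨M, T, hM, hT, hC⟩ := Pool.Agent.Helper52.SmoothPrimes.smooth_primes_sub P
      (fun r hr => hr.1) c hc hdens N C
    exact ⟨M, T, by omega, fun r hr => ⟨⟨(hT r hr).1, (hT r hr).2.1⟩, (hT r hr).2.2⟩, hC⟩

end Pool.Agent.Results.MP_26d9ad_nt.RandomDivisors
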