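import Mathlib
import Pool.Agent.Helper6.RungeFinal

/-!
# Runge's method over finitely generated rings

The base ring is `R = 𝓞_{k,S}[t₁, …, t_e]`, where `k` is a number field and `S` a finite set of
maximal ideals of `𝓞 k`.  Every arithmetic scheme becomes, after shrinking, finite over such a base.
-/

namespace Pool.Agent.Helper6.Kept.RungeFG

open IsDedekindDomain NumberField

/-- An integral point of degree at most `δ` of the affine `R`-scheme `Spec A`: an `R`-algebra
homomorphism `φ` from `A` to an algebraic closure of `K = Frac R` all of whose values are integral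
over `R` and generate an extension of `K` of degree at most `δ`. For example a `B`-valued point,
where `B` is a domain which is finite over `R` with fraction field of degree at most `δ` over
`K`. -/
def IsIntegralPoint (R : Type*) [CommRing R] [IsDomain R] {A : Type*} [CommRing A] [Algebra R A]
    (δ : ℕ) (φ : A →ₐ[R] AlgebraicClosure (FractionRing R)) : Prop :=
  (∀ a : A, IsIntegral R (φ a)) ∧
    Module.finrank (FractionRing R)
      (IntermediateField.adjoin (FractionRing R) (Set.range φ)) ≤ δ

/-- The domain `D` over `R` is of Runge type with parameter `ρ`: there are `r` finite tuples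
`f i = (f i j)_j` of elements of `D` (regular functions on `Spec D`, which should be thought of as
having poles only on the `i`-th boundary component of a compactification of the generic fibre),
such that each tuple `f i` generates a subalgebra over which `D` is algebraic (the `i`-th component
is big), every valuation ring of the function field of `D` that contains the fraction field of `R`
contains all but at most `m` of the tuples (at most `m` boundary components meet at a
point), and `r` is larger than `m * ρ`. -/
def IsRungeType (R : Type*) [CommRing R] (D : Type*) [CommRing D] [IsDomain D] [Algebra R D]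
    (ρ : ℕ) : Prop :=
  ∃ (m r : ℕ) (n : Fin r → ℕ) (f : ∀ i, Fin (n i) → D), m * ρ < r ∧
    (∀ i, Algebra.IsAlgebraic (Algebra.adjoin R (Set.range (f i))) D) ∧
    ∀ O : ValuationSubring (FractionRing D),
      (∀ a : R, a ≠ 0 → algebraMap R (FractionRing D) a ∈ O ∧
        (algebraMap R (FractionRing D) a)⁻¹ ∈ O) →
      {i : Fin r | ∃ j, algebraMap D (FractionRing D) (f i j) ∉ O}.ncard ≤ m

/-- Let `R = 𝓞_{k,S}[t₁, …, t_e]`, let `s` be the number of places of `k` in `S` or at infinity, and
let `A` be a finitely generated `R`-algebra. For every prime `q` of `A` which dominates `R`, is not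
generically finite over it and for which `A/q` is of Runge type with parameter `δ * s`, the integral
points of degree at most `δ` are not Zariski dense in `Spec A/q`; and if this holds for all primes
`q` of `A` which dominate `R` and are not generically finite over it, then `Spec A` has only
finitely many integral points of degree at most `δ`. -/
theorem result (k : Type*) [Field k] [NumberField k] (S : Set (HeightOneSpectrum (𝓞 k)))
    (hS : S.Finite) (e : ℕ) (A : Type*) [CommRing A]
    [Algebra (MvPolynomial (Fin e) (S.integer k)) A]
    [Algebra.FiniteType (MvPolynomial (Fin e) (S.integer k)) A] (δ : ℕ) :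
    (∀ (q : Ideal A) [q.IsPrime],
      Function.Injective (algebraMap (MvPolynomial (Fin e) (S.integer k)) (A ⧸ q)) →
      ¬ Algebra.IsAlgebraic (MvPolynomial (Fin e) (S.integer k)) (A ⧸ q) →
      IsRungeType (MvPolynomial (Fin e) (S.integer k)) (A ⧸ q)
        (δ * (Fintype.card (InfinitePlace k) + S.ncard)) →
      ∃ g : A, g ∉ q ∧ ∀ φ : A →ₐ[MvPolynomial (Fin e) (S.integer k)]
          AlgebraicClosure (FractionRing (MvPolynomial (Fin e) (S.integer k))),
        IsIntegralPoint (MvPolynomial (Fin e) (S.integer k)) δ φ →
        q ≤ RingHom.ker φ → φ g = 0) ∧
    ((∀ (q : Ideal A) [q.IsPrime],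
      Function.Injective (algebraMap (MvPolynomial (Fin e) (S.integer k)) (A ⧸ q)) →
      ¬ Algebra.IsAlgebraic (MvPolynomial (Fin e) (S.integer k)) (A ⧸ q) →
      IsRungeType (MvPolynomial (Fin e) (S.integer k)) (A ⧸ q)
        (δ * (Fintype.card (InfinitePlace k) + S.ncard))) →
      {φ : A →ₐ[MvPolynomial (Fin e) (S.integer k)]
        AlgebraicClosure (FractionRing (MvPolynomial (Fin e) (S.integer k))) |
          IsIntegralPoint (MvPolynomial (Fin e) (S.integer k)) δ φ}.Finite) :=
  ⟨fun q _ h1 h2 h3 => Helper6.nondense_quotient S hS
      (K := FractionRing (MvPolynomial (Fin e) (S.integer k)))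
      (Ω := AlgebraicClosure (FractionRing (MvPolynomial (Fin e) (S.integer k)))) δ q h1 h2 h3,
    fun h => Helper6.finite_points S hS
      (K := FractionRing (MvPolynomial (Fin e) (S.integer k)))
      (Ω := AlgebraicClosure (FractionRing (MvPolynomial (Fin e) (S.integer k)))) δ
      fun q _ h1 h2 => h q h1 h2⟩

end Pool.Agent.Helper6.Kept.RungeFG
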